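import Pool.Agent.H.MP_6ea4aa_an.Final

/-!
For `|b| = 1` and every `c` the Julia set `J_{c,b}` of the quadratic Henon map
`f (x, y) = (x^2 + c - b y, x)` is not connected.
-/

set_option autoImplicit false

namespace Pool.Agent.Results.MP_6ea4aa_an.VolumePreserving

theorem result (c b : ℂ) (hb : ‖b‖ = 1) :
    ¬ IsConnected
      (frontier {p : ℂ × ℂ | ∃ R : ℝ, ∀ n : ℕ,
          ‖(fun r : ℂ × ℂ => (r.1 ^ 2 + c - b * r.2, r.1))^[n] p‖ ≤ R} ∩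
       frontier {p : ℂ × ℂ | ∃ R : ℝ, ∀ n : ℕ,
          ‖(fun r : ℂ × ℂ => (r.2, (r.2 ^ 2 + c - r.1) / b))^[n] p‖ ≤ R}) :=
  H6ea4aa.JJ_not_connected c b hb

end Pool.Agent.Results.MP_6ea4aa_an.VolumePreserving
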